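import Pool.Agent.N7.IX.Calc

/-!
# Slots of a phantom class (project IX of helper132)

By helper765.  The passive factors are on the left: `c ↦ comp c T` is an operator
`A(V × Q) → A(V × Q)`, and `(V × P) × Q ≅ V × (Q × P)`.
-/

open CategoryTheory AlgebraicGeometry

universe u v w

namespace Pool.Agent.N765.IX

open Module Filter Topology
open Pool.Agent.H914 Pool.Agent.H914.VarClass Pool.Agent.H914.VarClass.Obj
  Pool.Agent.H914.WeilCohomology Pool.Agent.W492.BB Pool.Agent.W550.Corr
  Pool.Agent.N132.IX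
open Pool.Agent.Y133.Half hiding comp_lift lift_eta rho

section linalg

/-- ranks of maps with a larger kernel -/
theorem rank_le_of_ker {K M N N' : Type*} [Field K] [AddCommGroup M] [Module K M]
    [AddCommGroup N] [Module K N] [AddCommGroup N'] [Module K N'] {Λ : M →ₗ[K] N}
    {B : M →ₗ[K] N'} (h : LinearMap.ker Λ ≤ LinearMap.ker B)
    [Module.Finite K (LinearMap.range Λ)] :
    finrank K (LinearMap.range B) ≤ finrank K (LinearMap.range Λ) := by
  have : Module.Finite K (M ⧸ LinearMap.ker Λ) := Module.Finite.equiv Λ.quotKerEquivRange.symm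
  rw [← Λ.quotKerEquivRange.finrank_eq, ← B.quotKerEquivRange.finrank_eq]
  exact LinearMap.finrank_le_finrank_of_surjective (f := Submodule.factor h)
    (Submodule.factor_surjective h)

/-- ranks of orthogonal idempotents -/
theorem rank_add_le {K M : Type*} [Field K] [AddCommGroup M] [Module K M] [Module.Finite K M]
    {A B : Module.End K M} (hA : ∀ x, A (A x) = A x) (hB : ∀ x, B (B x) = B x)
    (hAB : ∀ x, A (B x) = 0) (hBA : ∀ x, B (A x) = 0) :
    finrank K (LinearMap.range A) + finrank K (LinearMap.range B) ≤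
      finrank K (LinearMap.range (A + B)) := by
  have h1 : LinearMap.range A ⊓ LinearMap.range B = ⊥ := by
    rw [eq_bot_iff]
    rintro _ ⟨⟨a, rfl⟩, ⟨b, hb⟩⟩
    rw [Submodule.mem_bot, ← hA a, ← hb, hAB]
  have h2 : LinearMap.range A ⊔ LinearMap.range B ≤ LinearMap.range (A + B) := by
    refine sup_le ?_ ?_
    · rintro _ ⟨a, rfl⟩
      exact ⟨A a, by rw [LinearMap.add_apply, hA, hBA, add_zero]⟩
    · rintro _ ⟨b, rfl⟩
      exact ⟨B b, by rw [LinearMap.add_apply, hB, hAB, zero_add]⟩
  have h3 := Submodule.finrank_sup_add_finrank_inf_eq (LinearMap.range A) (LinearMap.range B)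
  rw [h1, finrank_bot, add_zero] at h3
  rw [← h3]
  exact Submodule.finrank_mono h2

open Polynomial in
/-- a polynomial which gives an idempotent -/
theorem exists_idem_poly {K M : Type*} [Field K] [AddCommGroup M] [Module K M] [Module.Finite K M]
    (L : Module.End K M) : ∃ q : K[X], (q * X).eval 1 = 1 ∧
      aeval L ((q * X) * (q * X)) = aeval L (q * X) := by
  have hμ : minpoly K L ≠ 0 := minpoly.ne_zero (Algebra.IsIntegral.isIntegral L)
  obtain ⟨h, hh, hdvd⟩ := exists_eq_pow_rootMultiplicity_mul_and_not_dvd (minpoly K L) hμ 1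
  set s := (minpoly K L).rootMultiplicity 1
  have hirr : Irreducible (X - C (1:K)) := irreducible_X_sub_C 1
  have hcop : IsCoprime ((X - C (1:K)) ^ (s + 1)) (X * h) := by
    apply IsCoprime.pow_left
    rw [hirr.coprime_iff_not_dvd]
    intro hd
    rcases hirr.prime.dvd_or_dvd hd with h1 | h1
    · rw [dvd_iff_isRoot] at h1
      simp at h1
    · exact hdvd h1
  obtain ⟨a, b, hab⟩ := hcop
  refine ⟨b * h, ?_, ?_⟩
  · have := congrArg (eval 1) hab
    simp only [eval_add, eval_mul, eval_pow, eval_sub, eval_X, eval_C, sub_self, eval_one] at this ⊢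
    rw [zero_pow (Nat.succ_ne_zero s), mul_zero, zero_add, one_mul] at this
    rw [mul_one]
    exact this
  · have h1 : (b * h * X) * (b * h * X) - b * h * X = minpoly K L * (-(a * b * X * (X - C 1))) := by
      rw [hh]
      have h2 : a * (X - C (1:K)) ^ (s + 1) = 1 - b * (X * h) := by rw [← hab]; ring
      linear_combination (b * h * X) * h2
    have h2 := congrArg (aeval L) h1
    rw [map_sub, map_mul (aeval L) (minpoly K L), minpoly.aeval, zero_mul, sub_eq_zero] at h2
    exact h2

end linalg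

variable {k : Type u} [Field k] {𝒱 : VarClass k} {ops : CycleOps 𝒱}
  {W : WeilCohomology.{u, v} ops} {X Y Z P Q V : 𝒱.Obj}

variable (C : CycleTheory.{u, v, w} W)

/-- composition on the right -/
noncomputable def cR (V : 𝒱.Obj) {Q Q' : 𝒱.Obj} (T : C.A (Q.prod Q')) :
    C.A (V.prod Q) →ₗ[W.K] C.A (V.prod Q') := (compL C.toTheoryData).flip T

lemma cR_apply (T : C.A (Q.prod Z)) (c : C.A (V.prod Q)) : cR C V T c = C.comp c T := rfl

lemma cl_comp_eq {T : C.A (Q.prod Q)} (hT : C.cl _ T = C.cl _ (dg C.toTheoryData Q))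
    (c : C.A (V.prod Q)) : C.cl _ (C.comp c T) = C.cl _ c := by
  have h1 : C.rho V Q (C.comp c T - c) = 0 := by
    rw [map_sub, C.rho_comp, C.rho_apply T, hT, ← C.rho_apply, C.rho_dg, LinearMap.id_comp, sub_self]
  rw [C.rho_eq_zero, map_sub, sub_eq_zero] at h1
  exact h1

lemma cl_comp_zero {Γ : C.A (Q.prod Q)} (hΓ : C.cl _ Γ = 0)
    (c : C.A (V.prod Q)) : C.cl _ (C.comp c Γ) = 0 := by
  rw [← C.rho_eq_zero, C.rho_comp, C.rho_apply Γ, hΓ, corr_zero, LinearMap.zero_comp]

/-- the idempotent `e` -/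
theorem exists_e {y : C.A P} {Γ : C.A (P.prod P)} (hΓ : C.cl _ Γ = 0) (hΓy : C.act Γ y = y)
    (hPP : Module.Finite W.K (C.A (P.prod P))) :
    ∃ e : C.A (P.prod P), C.comp e e = e ∧ C.cl _ e = 0 ∧ C.act e y = y := by
  obtain ⟨q, hq1, hq2⟩ := exists_idem_poly (cR C P Γ)
  set L := cR C P Γ with hL
  have hLx : ∀ x, L x = C.comp x Γ := fun x => rfl
  -- polynomials in `L`
  have hcomm : ∀ (p : Polynomial W.K) (x : C.A (P.prod P)),
      Polynomial.aeval L p x = C.comp x (Polynomial.aeval L p (dg C.toTheoryData P)) := by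
    intro p
    induction p using Polynomial.induction_on' with
    | add p q hp hq =>
      intro x
      rw [map_add, LinearMap.add_apply, LinearMap.add_apply, hp, hq, comp_add]
    | monomial n a =>
      intro x
      rw [Polynomial.aeval_monomial]
      change a • (L ^ n) x = C.comp x (a • (L ^ n) (dg C.toTheoryData P))
      have h1 : ∀ (n : ℕ) (x : C.A (P.prod P)), (L ^ n) x = C.comp x ((L ^ n) (dg C.toTheoryData P)) := by
        intro n
        induction n with
        | zero =>
          intro x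
          rw [pow_zero, Module.End.one_apply, Module.End.one_apply, comp_dg]
        | succ n ih =>
          intro x
          rw [pow_succ', Module.End.mul_apply, Module.End.mul_apply, hLx, hLx, ih x, comp_assoc]
      rw [h1 n x]
      exact (map_smul ((compL C.toTheoryData) x) a _).symm
  have hact : ∀ (p : Polynomial W.K),
      C.act (Polynomial.aeval L p (dg C.toTheoryData P)) y = p.eval 1 • y := by
    intro p
    induction p using Polynomial.induction_on' with
    | add p q hp hq =>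
      rw [map_add, LinearMap.add_apply, TheoryData.act_add, hp, hq, Polynomial.eval_add, add_smul]
    | monomial n a =>
      rw [Polynomial.aeval_monomial, Polynomial.eval_monomial, one_pow, mul_one]
      change C.act (a • (L ^ n) (dg C.toTheoryData P)) y = a • y
      have h1 : ∀ n : ℕ, C.act ((L ^ n) (dg C.toTheoryData P)) y = y := by
        intro n
        induction n with
        | zero => rw [pow_zero, Module.End.one_apply, act_dg]
        | succ n ih =>
          rw [pow_succ', Module.End.mul_apply, hLx, TheoryData.act_comp, ih, hΓy]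
      have h2 := h1 n
      have h3 : C.act (a • (L ^ n) (dg C.toTheoryData P)) y =
          a • C.act ((L ^ n) (dg C.toTheoryData P)) y := by
        rw [← actB_apply, map_smul, LinearMap.smul_apply, actB_apply]
      rw [h3, h2]
  refine ⟨Polynomial.aeval L (q * Polynomial.X) (dg C.toTheoryData P), ?_, ?_, ?_⟩
  · rw [← hcomm, ← Module.End.mul_apply, ← map_mul, hq2]
  · have h1 : Polynomial.aeval L (q * Polynomial.X) (dg C.toTheoryData P) =
        C.comp (Polynomial.aeval L q (dg C.toTheoryData P)) Γ := by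
      rw [mul_comm, map_mul, Polynomial.aeval_X, Module.End.mul_apply, hLx]
    rw [h1, cl_comp_zero C hΓ]
  · rw [hact, hq1, one_smul]

/-- `(V × P) × Q ⟶ V × (Q × P)` -/
noncomputable def bt (V P Q : 𝒱.Obj) : (V.prod P).prod Q ⟶ V.prod (Q.prod P) :=
  Obj.lift (fst (V.prod P) Q ≫ fst V P)
    (Obj.lift (snd (V.prod P) Q) (fst (V.prod P) Q ≫ snd V P))

/-- `V × (Q × P) ⟶ (V × P) × Q` -/
noncomputable def bt' (V P Q : 𝒱.Obj) : V.prod (Q.prod P) ⟶ (V.prod P).prod Q :=
  Obj.lift (Obj.lift (fst V (Q.prod P)) (snd V (Q.prod P) ≫ snd Q P))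
    (snd V (Q.prod P) ≫ fst Q P)

lemma bt_bt' : bt V P Q ≫ bt' V P Q = 𝟙 _ := by
  apply prod_ext
  · apply prod_ext <;> simp [bt, bt', comp_lift]
  · simp [bt, bt', comp_lift]

lemma bt'_bt : bt' V P Q ≫ bt V P Q = 𝟙 _ := by
  apply prod_ext
  · simp [bt, bt', comp_lift]
  · apply prod_ext <;> simp [bt, bt', comp_lift]

/-- the isomorphism -/
noncomputable def btI (V P Q : 𝒱.Obj) : (V.prod P).prod Q ≅ V.prod (Q.prod P) where
  hom := bt V P Q
  inv := bt' V P Q
  hom_inv_id := bt_bt'
  inv_hom_id := bt'_bt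

/-- the morphism `(Q × Q) × P ⟶ (Q × P) × (Q × P)` -/
noncomputable def dl (Q P : 𝒱.Obj) : (Q.prod Q).prod P ⟶ (Q.prod P).prod (Q.prod P) :=
  prodMap (𝟙 (Q.prod Q)) (Obj.lift (𝟙 P) (𝟙 P)) ≫ TH133.mid Q Q P P

lemma tens_dg_eq (T : C.A (Q.prod Q)) : TH133.tens C.toTheoryData T (dg C.toTheoryData P) =
    C.push (dl Q P) (C.pull (fst (Q.prod Q) P) T) := by
  rw [TH133.tens_eq C.toTheoryData, pull_iso C.toTheoryData (TH133.mid Q P Q P)
    (TH133.mid Q Q P P) (TH133.mid_mid _ _ _ _) (TH133.mid_mid _ _ _ _), dg, TheoryData.graph]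
  have h1 : C.ext T (C.push (Obj.lift (𝟙 P) (𝟙 P)) 1) =
      C.push (prodMap (𝟙 (Q.prod Q)) (Obj.lift (𝟙 P) (𝟙 P))) (C.ext T (1 : C.A P)) := by
    rw [TH133.push_ext C.toTheoryData, TheoryData.push_id]
  rw [h1, ← TheoryData.push_comp, TheoryData.ext, map_one, mul_one]
  rfl

/-- naturality in the passive factor -/
theorem nat (T : C.A (Q.prod Q)) (c : C.A (V.prod (Q.prod P))) :
    C.pull (bt V P Q) (C.comp c (TH133.tens C.toTheoryData T (dg C.toTheoryData P))) =
      C.comp (C.pull (bt V P Q) c) T := by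
  let γ : (V.prod P).prod (Q.prod Q) ⟶ V.prod ((Q.prod Q).prod P) :=
    Obj.lift (fst (V.prod P) (Q.prod Q) ≫ fst V P)
      (Obj.lift (snd (V.prod P) (Q.prod Q)) (fst (V.prod P) (Q.prod Q) ≫ snd V P))
  let γ' : V.prod ((Q.prod Q).prod P) ⟶ (V.prod P).prod (Q.prod Q) :=
    Obj.lift (Obj.lift (fst V ((Q.prod Q).prod P)) (snd V ((Q.prod Q).prod P) ≫ snd (Q.prod Q) P))
      (snd V ((Q.prod Q).prod P) ≫ fst (Q.prod Q) P)
  have g1 : γ ≫ γ' = 𝟙 _ := bt_bt'
  have g2 : γ' ≫ γ = 𝟙 _ := bt'_bt
  rw [comp_eq_extR, comp_eq_extR, TheoryData.extR, TheoryData.extR, tens_dg_eq,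
    TheoryData.base_snd, ← TheoryData.proj_right, ← TheoryData.push_comp,
    pull_iso C.toTheoryData (bt V P Q) (bt' V P Q) bt_bt' bt'_bt, ← TheoryData.push_comp,
    push_model C.toTheoryData γ γ' g1 g2, map_mul, ← TheoryData.pull_comp, ← TheoryData.pull_comp,
    ← TheoryData.pull_comp, ← TheoryData.pull_comp, ← TheoryData.pull_comp]
  have e1 : γ ≫ (prodMap (𝟙 V) (dl Q P) ≫ u13 V (Q.prod P) (Q.prod P)) ≫ bt' V P Q =
      u13 (V.prod P) Q Q := by
    apply prod_ext
    · apply prod_ext <;> simp [γ, dl, bt', u13, TH133.mid, prodMap, comp_lift]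
    · simp [γ, dl, bt', u13, TH133.mid, prodMap, comp_lift]
  have e2 : γ ≫ snd V ((Q.prod Q).prod P) ≫ fst (Q.prod Q) P = snd (V.prod P) (Q.prod Q) := by
    simp [γ, comp_lift]
  have e3 : γ ≫ prodMap (𝟙 V) (dl Q P) ≫ u12 V (Q.prod P) (Q.prod P) =
      u12 (V.prod P) Q Q ≫ bt V P Q := by
    apply prod_ext
    · simp [γ, dl, bt, u12, TH133.mid, prodMap, comp_lift]
    · apply prod_ext <;> simp [γ, dl, bt, u12, TH133.mid, prodMap, comp_lift]
  simp only [Category.assoc] at e1 e2 e3 ⊢
  rw [e1, e2, e3]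

/-- the pull-back along the isomorphism as a linear equivalence -/
noncomputable def phi (V P Q : 𝒱.Obj) :
    C.A (V.prod (Q.prod P)) ≃ₗ[W.K] C.A ((V.prod P).prod Q) :=
  LinearEquiv.ofLinearMap (C.pull (bt V P Q)).toLinearMap (C.pull (bt' V P Q)).toLinearMap
    (by
      apply LinearMap.ext
      intro x
      simp only [LinearMap.comp_apply, AlgHom.toLinearMap_apply, LinearMap.id_apply]
      rw [← TheoryData.pull_comp, bt_bt', TheoryData.pull_id])
    (by
      apply LinearMap.ext
      intro x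
      simp only [LinearMap.comp_apply, AlgHom.toLinearMap_apply, LinearMap.id_apply]
      rw [← TheoryData.pull_comp, bt'_bt, TheoryData.pull_id])

lemma phi_apply (c : C.A (V.prod (Q.prod P))) : phi C V P Q c = C.pull (bt V P Q) c := rfl

lemma rank_tens (T : C.A (Q.prod Q)) :
    finrank W.K (LinearMap.range (cR C (V.prod P) T)) = finrank W.K (LinearMap.range
      (cR C V (TH133.tens C.toTheoryData T (dg C.toTheoryData P)))) := by
  have h1 : LinearMap.range (cR C (V.prod P) T) = (LinearMap.range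
      (cR C V (TH133.tens C.toTheoryData T (dg C.toTheoryData P)))).map
        (phi C V P Q).toLinearMap := by
    ext x
    simp only [LinearMap.mem_range, Submodule.mem_map]
    constructor
    · rintro ⟨c, rfl⟩
      obtain ⟨c, rfl⟩ := (phi C V P Q).surjective c
      exact ⟨_, ⟨c, rfl⟩, nat C T c⟩
    · rintro ⟨_, ⟨c, rfl⟩, rfl⟩
      exact ⟨phi C V P Q c, (nat C T c).symm⟩
  rw [h1]
  exact LinearEquiv.finrank_map_eq (phi C V P Q) _

/-- the insertion of `y` -/
noncomputable def io (Q : 𝒱.Obj) (y : C.A P) : C.A (Q.prod (Q.prod P)) :=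
  cw C (fst Q P) (C.pull (snd Q P) y)

/-- an inserted class is zero only if it is numerically trivial -/
theorem num_of_io {y : C.A P} (hy : y ≠ 0) {x : C.A (V.prod Q)} (hx : C.comp x (io C Q y) = 0)
    (w : C.A (V.prod Q)) : W.tr _ (C.cl _ (x * w)) = 0 := by
  have h1 : C.comp x (io C Q y) = C.pull (snd V (Q.prod P) ≫ snd Q P) y *
      C.pull (prodMap (𝟙 V) (fst Q P)) x := by
    rw [comp_eq_extR, io, extR_cw, ← TheoryData.pull_comp]
  rw [h1] at hx
  have e1 : aJ V Q P ≫ fst (V.prod Q) P = prodMap (𝟙 V) (fst Q P) := by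
    apply prod_ext <;> simp [aJ, comp_lift]
  have e2 : aJ V Q P ≫ snd (V.prod Q) P = snd V (Q.prod P) ≫ snd Q P := by
    simp [aJ, comp_lift]
  have h2 : C.push (snd V (Q.prod P) ≫ snd Q P) (C.pull (snd V (Q.prod P) ≫ snd Q P) y *
      C.pull (prodMap (𝟙 V) (fst Q P)) (x * w)) = W.tr _ (C.cl _ (x * w)) • y := by
    rw [TheoryData.proj_left, ← e1, ← e2, TheoryData.pull_comp C.toTheoryData (aJ V Q P) (fst (V.prod Q) P),
      TheoryData.push_comp C.toTheoryData, push_pull_iso C.toTheoryData (aJ V Q P) (aI V Q P) aJ_aI aI_aJ,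
      push_pull_degree, mul_smul_comm, mul_one]
  rw [map_mul (C.pull (prodMap (𝟙 V) (fst Q P))), ← mul_assoc, hx, zero_mul, map_zero] at h2
  exact (smul_eq_zero.1 h2.symm).resolve_right hy

/-- the rank of one slot -/
theorem rank_slot {y : C.A P} (hy : y ≠ 0) {e : C.A (P.prod P)} (hey : C.act e y = y)
    {T : C.A (Q.prod Q)} (hT : C.cl _ T = C.cl _ (dg C.toTheoryData Q)) (V : 𝒱.Obj)
    [hfin : Module.Finite W.K (C.A (V.prod (Q.prod P)))] :
    C.S.a (V.prod Q) ≤ finrank W.K
      (LinearMap.range (cR C V (TH133.tens C.toTheoryData T e))) := by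
  let Λ : C.A (V.prod Q) →ₗ[W.K] C.A (V.prod (Q.prod P)) := cR C V (io C Q y) ∘ₗ cR C V T
  let B : C.A (V.prod Q) →ₗ[W.K] (C.S.C (V.prod Q) →ₗ[W.K] W.K) :=
    C.S.F (V.prod Q) 1 ∘ₗ (C.cl (V.prod Q)).toLinearMap.rangeRestrict
  have h1 : LinearMap.ker Λ ≤ LinearMap.ker B := by
    intro x hx
    rw [LinearMap.mem_ker] at hx ⊢
    have h2 := num_of_io C hy (x := C.comp x T) hx
    apply LinearMap.ext
    rintro ⟨_, ⟨w, rfl⟩⟩
    have h3 := h2 w
    rw [map_mul, cl_comp_eq C hT] at h3
    exact h3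
  have h2 : LinearMap.range Λ ≤ LinearMap.range (cR C V (TH133.tens C.toTheoryData T e)) := by
    rintro _ ⟨x, rfl⟩
    refine ⟨C.comp x (io C Q y), ?_⟩
    change C.comp (C.comp x (io C Q y)) (TH133.tens C.toTheoryData T e) =
      C.comp (C.comp x T) (io C Q y)
    rw [comp_assoc, io, slot C T hey, comp_assoc]
  have h3 : LinearMap.range B = LinearMap.range (C.S.F (V.prod Q) 1) := by
    apply LinearMap.range_comp_of_range_eq_top
    exact LinearMap.range_rangeRestrict _
  have h4 : C.S.a (V.prod Q) = finrank W.K (LinearMap.range B) := by rw [h3]; rfl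
  rw [h4]
  exact (rank_le_of_ker h1).trans (Submodule.finrank_mono h2)

lemma cl_tens {T : C.A (Q.prod Q)} (hT : C.cl _ T = C.cl _ (dg C.toTheoryData Q))
    {f : C.A (P.prod P)} (hf : C.cl _ f = C.cl _ (dg C.toTheoryData P)) :
    C.cl _ (TH133.tens C.toTheoryData T f) = C.cl _ (dg C.toTheoryData (Q.prod P)) := by
  rw [← TH133.tens_dg C.toTheoryData, TH133.tens, TH133.tens, map_mul, map_mul, C.cl_pull,
    C.cl_pull, C.cl_pull, C.cl_pull, hT, hf]

lemma tens_add (T : C.A (Q.prod Q)) (f g : C.A (P.prod P)) :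
    TH133.tens C.toTheoryData T (f + g) = TH133.tens C.toTheoryData T f +
      TH133.tens C.toTheoryData T g := by
  rw [TH133.tens, TH133.tens, TH133.tens, map_add, mul_add]

lemma tens_zero (T : C.A (Q.prod Q)) :
    TH133.tens C.toTheoryData T (0 : C.A (P.prod P)) = 0 := by
  rw [TH133.tens, map_zero, mul_zero]

/-- the count -/
theorem claim {y : C.A P} (hy : y ≠ 0) {e : C.A (P.prod P)} (hee : C.comp e e = e)
    (he0 : C.cl _ e = 0) (hey : C.act e y = y) (k : ℕ) :
    ∀ (Q : 𝒱.Obj) (T : C.A (Q.prod Q)), C.comp T T = T →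
      C.cl _ T = C.cl _ (dg C.toTheoryData Q) →
      Module.Finite W.K (C.A ((pw P (k + 1)).prod Q)) →
      (k + 1) * C.S.a ((pw P k).prod Q) ≤
        finrank W.K (LinearMap.range (cR C (pw P (k + 1)) T)) := by
  set D := dg C.toTheoryData P with hD
  have hDD : C.comp D D = D := comp_dg C.toTheoryData D
  have heD : C.comp e (D - e) = 0 := by
    rw [comp_sub, hD, comp_dg, hee, sub_self]
  have hDe : C.comp (D - e) e = 0 := by
    rw [sub_comp, hD, dg_comp, hee, sub_self]
  have hDeDe : C.comp (D - e) (D - e) = D - e := by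
    rw [comp_sub, hDe, sub_zero, hD, comp_dg]
  have hclD : C.cl _ (D - e) = C.cl _ (dg C.toTheoryData P) := by
    rw [map_sub, he0, sub_zero]
  induction k with
  | zero =>
    intro Q T hTT hT hfin
    have hfin' : Module.Finite W.K (C.A (((pw P 0).prod P).prod Q)) := hfin
    have hf : Module.Finite W.K (C.A ((pw P 0).prod (Q.prod P))) :=
      Module.Finite.equiv (phi C (pw P 0) P Q).symm
    have h1 := rank_slot C hy hey hT (pw P 0)
    have h2 : finrank W.K (LinearMap.range (cR C (pw P (0 + 1)) T)) = _ :=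
      rank_tens C (V := pw P 0) (P := P) T
    rw [h2, Nat.zero_add, one_mul]
    refine h1.trans ?_
    refine Submodule.finrank_mono ?_
    rintro _ ⟨x, rfl⟩
    refine ⟨C.comp x (TH133.tens C.toTheoryData T e), ?_⟩
    change C.comp (C.comp x (TH133.tens C.toTheoryData T e)) (TH133.tens C.toTheoryData T D) =
      C.comp x (TH133.tens C.toTheoryData T e)
    rw [comp_assoc, TH133.tens_comp C.toTheoryData C.mul_comm, hTT, hD, comp_dg]
  | succ k ih =>
    intro Q T hTT hT hfin
    have hfin' : Module.Finite W.K (C.A (((pw P (k + 1)).prod P).prod Q)) := hfin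
    have hf : Module.Finite W.K (C.A ((pw P (k + 1)).prod (Q.prod P))) :=
      Module.Finite.equiv (phi C (pw P (k + 1)) P Q).symm
    have h1 := rank_slot C hy hey hT (pw P (k + 1))
    have h2 : finrank W.K (LinearMap.range (cR C (pw P (k + 1 + 1)) T)) = _ :=
      rank_tens C (V := pw P (k + 1)) (P := P) T
    have h3 := ih (Q.prod P) (TH133.tens C.toTheoryData T (D - e))
      (by rw [TH133.tens_comp C.toTheoryData C.mul_comm, hTT, hDeDe])
      (cl_tens C hT hclD) hf
    have h4 : C.S.a ((pw P (k + 1)).prod Q) = C.S.a ((pw P k).prod (Q.prod P)) :=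
      Sys.a_iso C.S (btI (pw P k) P Q)
    rw [← h4] at h3
    have h5 : cR C (pw P (k + 1)) (TH133.tens C.toTheoryData T (dg C.toTheoryData P)) =
        cR C (pw P (k + 1)) (TH133.tens C.toTheoryData T e) +
        cR C (pw P (k + 1)) (TH133.tens C.toTheoryData T (D - e)) := by
      have : dg C.toTheoryData P = e + (D - e) := by rw [← hD]; abel
      rw [this, tens_add, cR, map_add]
      rfl
    have h6 : ∀ (f g : C.A (P.prod P)) (x : C.A ((pw P (k + 1)).prod (Q.prod P))),
        cR C (pw P (k + 1)) (TH133.tens C.toTheoryData T g)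
          (cR C (pw P (k + 1)) (TH133.tens C.toTheoryData T f) x) =
        cR C (pw P (k + 1)) (TH133.tens C.toTheoryData T (C.comp f g)) x := by
      intro f g x
      rw [cR_apply, cR_apply, cR_apply, comp_assoc, TH133.tens_comp C.toTheoryData C.mul_comm, hTT]
    have h7 := rank_add_le (A := cR C (pw P (k + 1)) (TH133.tens C.toTheoryData T e))
      (B := cR C (pw P (k + 1)) (TH133.tens C.toTheoryData T (D - e)))
      (fun x => by rw [h6, hee]) (fun x => by rw [h6, hDeDe])
      (fun x => by rw [h6, hDe, tens_zero, cR_apply, comp_zero])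
      (fun x => by rw [h6, heD, tens_zero, cR_apply, comp_zero])
    rw [h2, h5]
    calc (k + 1 + 1) * C.S.a ((pw P (k + 1)).prod Q) =
        C.S.a ((pw P (k + 1)).prod Q) + (k + 1) * C.S.a ((pw P (k + 1)).prod Q) := by ring
      _ ≤ _ := (add_le_add h1 h3).trans h7

/-- IX/L5b. Slots: a nonzero class fixed by a homologically trivial correspondence. -/
theorem phantom (P : 𝒱.Obj) {y : C.A P} (hy : y ≠ 0) {Γ : C.A (P.prod P)}
    (hΓ : C.cl _ Γ = 0) (hΓy : C.act Γ y = y) (hPP : Module.Finite W.K (C.A (P.prod P)))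
    (k : ℕ) (Z : 𝒱.Obj) (hfin : Module.Finite W.K (C.A ((pw P (k + 1)).prod Z))) :
    (k + 1) * C.S.a ((pw P k).prod Z) ≤ finrank W.K (C.A ((pw P (k + 1)).prod Z)) := by
  obtain ⟨e, hee, he0, hey⟩ := exists_e C hΓ hΓy hPP
  have h1 := claim C hy hee he0 hey k Z (dg C.toTheoryData Z) (comp_dg C.toTheoryData _) rfl hfin
  exact h1.trans (Submodule.finrank_le _)

end Pool.Agent.N765.IX
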